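import Pool.Agent.ACK.StmtsD

/-!
# ACK part D, WPL: the faces of the pattern words
-/

set_option autoImplicit false

namespace Pool.Agent.ACK.H64

open Pool.Agent.ACK Pool.Agent.ACK.D

theorem ln_two (b : Fin 6 → ℕ) (i : Fin 6) : 2 ≤ ln b i := by
  unfold ln
  split_ifs <;> omega

theorem cx_eq (i : Fin 6) (s : ℕ) : cx (6 * s + i.1) = i := by
  apply Fin.ext
  show (6 * s + i.1) % 6 = i.1
  have := i.isLt
  omega

theorem div_eq (i : Fin 6) (s : ℕ) : (6 * s + i.1) / 6 = s := by
  have := i.isLt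
  omega

theorem triangles (P : Pat) (hP : P = pat1 ∨ P = pat2) : ∀ q, ∃ i, P.A i = q := by
  rcases hP with rfl | rfl
  · decide
  · decide

theorem whites (P : Pat) (hP : P = pat1 ∨ P = pat2) : ∀ q, ∃ i, P.f i = q ∨ P.k i = q := by
  rcases hP with rfl | rfl
  · decide
  · decide

/-- the bigons -/
def bigs (b : Fin 6 → ℕ) : Finset (Fin 6 × ℕ) :=
  (Finset.univ.sigma fun i : Fin 6 => Finset.Ioo 0 (ln b i)).map
    (Equiv.sigmaEquivProd (Fin 6) ℕ).toEmbedding

theorem card_bigs (b : Fin 6 → ℕ) : (bigs b).card + 6 = ∑ i, ln b i := by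
  unfold bigs
  rw [Finset.card_map, Finset.card_sigma]
  have h1 : ∀ i : Fin 6, (Finset.Ioo 0 (ln b i)).card + 1 = ln b i := by
    intro i
    rw [Nat.card_Ioo]
    have := ln_two b i
    omega
  have h2 : (∑ i : Fin 6, (Finset.Ioo 0 (ln b i)).card) + 6 =
      ∑ i : Fin 6, ((Finset.Ioo 0 (ln b i)).card + 1) := by
    rw [Finset.sum_add_distrib]
    simp
  rw [h2]
  exact Finset.sum_congr rfl fun i _ => h1 i

theorem mem_bigs {b : Fin 6 → ℕ} {i : Fin 6} {s : ℕ} (h : (i, s) ∈ bigs b) :
    0 < s ∧ s < ln b i := by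
  unfold bigs at h
  rw [Finset.mem_map] at h
  obtain ⟨⟨j, t⟩, hj, he⟩ := h
  have h1 : j = i := congrArg Prod.fst he
  have h2 : t = s := congrArg Prod.snd he
  subst h1 h2
  rw [Finset.mem_sigma, Finset.mem_Ioo] at hj
  exact hj.2

theorem wpl (h1 : WclStmt) (h2 : WchStmt) (h3 : LabStmt) (h4 : EulStmt) (h5 : GfwStmt) :
    WplStmt := by
  intro P hP b c hc
  obtain ⟨hnd, hlen, hmem, -, hgw⟩ := h1 P hP (ln b)
  have hc1 : 6 ≤ c := by
    rw [hc, ← card_bigs b]
    omega
  have hlen' : (Wd P (ln b)).length = 2 * c := by rw [hlen, hc]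
  have hlenL : (W2 P (ln b)).length = 2 * c := by
    rw [← hlen']
    unfold Wd
    rw [List.length_map]
  have hchain := h2 P hP b
  have hin : ∀ (i : Fin 6) (s : ℕ), s < ln b i → (6 * s + i.1, false) ∈ W2 P (ln b) := by
    intro i s hs
    rw [hmem, cx_eq, div_eq]
    exact hs
  have hA : ∀ (i : Fin 6) (s : ℕ), inn P (ln b) (6 * s + i.1, false) =
      (wht P i s false, blk P (ln b) i s) := by
    intro i s
    unfold inn
    rw [if_pos rfl, cx_eq, div_eq]
  have hB : ∀ (i : Fin 6) (s : ℕ), out P (ln b) (6 * s + i.1, false) =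
      (wht P i s true, blk P (ln b) i (s + 1)) := by
    intro i s
    unfold out
    rw [if_pos rfl, cx_eq, div_eq]
  -- black faces
  have hblack : ((Finset.univ : Finset (Fin 4)).disjSum (bigs b)).card ≤
      nc (wd c ((W2 P (ln b)).map Prod.fst)) (bs P) := by
    refine h3 c (W2 P (ln b)) (bs P) Bl (fun p => (inn P (ln b) p).2)
      (fun p => (out P (ln b) p).2) (by omega) hlenL hnd ?_ ?_ _ ?_
    · exact hchain.imp fun p q h => congrArg Prod.snd h
    · intro x _ _
      unfold bs inn out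
      rcases hpr : P.pr (cx x) with _ | _
      · simp
      · simp
    · intro t ht
      rw [Finset.mem_disjSum] at ht
      rcases ht with ⟨q, _, rfl⟩ | ⟨⟨i, s⟩, hs, rfl⟩
      · obtain ⟨i, hi⟩ := triangles P hP q
        refine ⟨(6 * 0 + i.1, false), hin i 0 (by have := ln_two b i; omega), Or.inr ?_⟩
        show (inn P (ln b) (6 * 0 + i.1, false)).2 = _
        rw [hA]
        show blk P (ln b) i 0 = _
        unfold blk
        rw [if_pos rfl, hi]
      · obtain ⟨hs1, hs2⟩ := mem_bigs hs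
        refine ⟨(6 * s + i.1, false), hin i s hs2, Or.inr ?_⟩
        show (inn P (ln b) (6 * s + i.1, false)).2 = _
        rw [hA]
        show blk P (ln b) i s = _
        unfold blk
        rw [if_neg (by omega), if_neg (by omega)]
  -- white faces
  have hwhite : (Finset.univ : Finset (Fin 4)).card ≤
      nc (wd c ((W2 P (ln b)).map Prod.fst)) (op (bs P)) := by
    refine h3 c (W2 P (ln b)) (op (bs P)) (Fin 4) (fun p => (inn P (ln b) p).1)
      (fun p => (out P (ln b) p).1) (by omega) hlenL hnd ?_ ?_ _ ?_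
    · exact hchain.imp fun p q h => congrArg Prod.fst h
    · intro x _ _
      unfold op bs inn out
      rcases hpr : P.pr (cx x) with _ | _
      · simp
      · simp
    · intro q _
      obtain ⟨i, hi | hi⟩ := whites P hP q
      · refine ⟨(6 * 0 + i.1, false), hin i 0 (by have := ln_two b i; omega), Or.inr ?_⟩
        show (inn P (ln b) (6 * 0 + i.1, false)).1 = _
        rw [hA]
        exact hi
      · refine ⟨(6 * 0 + i.1, false), hin i 0 (by have := ln_two b i; omega), Or.inl ?_⟩
        show (out P (ln b) (6 * 0 + i.1, false)).1 = _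
        rw [hB]
        exact hi
  have hgf := h5 c (Wd P (ln b)) (by omega) hlen' hgw
  have heul := h4 c (wd c (Wd P (ln b))) (by omega) hgf (bs P)
  rw [Finset.card_disjSum, Finset.card_univ, Fintype.card_fin] at hblack
  rw [Finset.card_univ, Fintype.card_fin] at hwhite
  have hcb := card_bigs b
  rw [← hc] at hcb
  have hb' : 4 + (bigs b).card ≤ nc (wd c (Wd P (ln b))) (bs P) := hblack
  have hw' : 4 ≤ nc (wd c (Wd P (ln b))) (op (bs P)) := hwhite
  constructor
  · omega
  · omega

end Pool.Agent.ACK.H64
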