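import Pool.Agent.ACK.StmtsC

/-!
# ACK part C, LDS: the steps of the ladder of a chain, for the opposite state
-/

set_option autoImplicit false

namespace Pool.Agent.ACK.H64

open Pool.Agent.ACK Pool.Agent.ACK.C

/-- the position of the first letter of the token `x` -/
def pt (C : ℕ → List ℕ) (b : List Tk) (x : ℕ) : ℕ := (BL C (b.take x)).length

theorem bl_split (C : ℕ → List ℕ) (b : List Tk) (x : ℕ) (hx : x < b.length) :
    BL C b = BL C (b.take x) ++ (bk C b[x] ++ BL C (b.drop (x + 1))) := by
  have h1 : b = b.take x ++ b[x] :: b.drop (x + 1) := by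
    rw [← List.drop_eq_getElem_cons hx, List.take_append_drop]
  have h2 : BL C b = BL C (b.take x ++ b[x] :: b.drop (x + 1)) := by rw [← h1]
  rw [h2]
  unfold BL
  rw [List.flatMap_append, List.flatMap_cons]

theorem pt_succ (C : ℕ → List ℕ) (b : List Tk) (x : ℕ) (hx : x < b.length) :
    pt C b (x + 1) = pt C b x + (bk C b[x]).length := by
  unfold pt
  rw [List.take_succ_eq_append_getElem hx]
  unfold BL
  rw [List.flatMap_append, List.length_append]
  simp

theorem pt_mono (C : ℕ → List ℕ) (b : List Tk) {x y : ℕ} (hxy : x ≤ y) :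
    pt C b x ≤ pt C b y := by
  induction y, hxy using Nat.le_induction with
  | base => exact le_rfl
  | succ y _ ih =>
    by_cases hy : y < b.length
    · rw [pt_succ C b y hy]
      omega
    · refine ih.trans (le_of_eq ?_)
      unfold pt
      rw [List.take_of_length_le (by omega), List.take_of_length_le (by omega)]

theorem pt_le (C : ℕ → List ℕ) (b : List Tk) (x : ℕ) (hx : x ≤ b.length) :
    pt C b x ≤ (BL C b).length := by
  have h := pt_mono C b hx
  unfold pt at h ⊢
  rwa [List.take_length] at h

theorem decomp (b : List Tk) {x y : ℕ} (hxy : x < y) (hy : y < b.length) :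
    ∃ P Q R : List Tk, b = P ++ b[x] :: (Q ++ b[y] :: R) := by
  refine ⟨b.take x, (b.drop (x + 1)).take (y - (x + 1)), b.drop (y + 1), ?_⟩
  have h1 : (b.drop (x + 1)).drop (y - (x + 1)) = b[y] :: b.drop (y + 1) := by
    rw [List.drop_drop, ← List.drop_eq_getElem_cons hy]
    congr 1
    omega
  rw [← h1, List.take_append_drop, ← List.drop_eq_getElem_cons (by omega), List.take_append_drop]

theorem wd_pt (c : ℕ) (C : ℕ → List ℕ) (b : List Tk) (x j : ℕ) (hx : x < b.length)
    (hj : j < (bk C b[x]).length) (hlen : (BL C b).length = 2 * c) :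
    wd c (BL C b) ((pt C b x + j : ℕ) : ZMod (2 * c)) = (bk C b[x])[j] := by
  have h1 := pt_succ C b x hx
  have h2 := pt_le C b (x + 1) (by omega)
  have h3 : pt C b x + j < 2 * c := by omega
  have h4 : ((pt C b x + j : ℕ) : ZMod (2 * c)).val = pt C b x + j := ZMod.val_cast_of_lt h3
  unfold wd
  rw [h4, List.getD_eq_getElem _ _ (by omega)]
  have h5 := bl_split C b x hx
  have h6 : (BL C b)[pt C b x + j]'(by omega) =
      (BL C (b.take x) ++ (bk C b[x] ++ BL C (b.drop (x + 1))))[pt C b x + j]'(by
        rw [← h5]; omega) := by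
    congr 1
  rw [h6, List.getElem_append_right (by unfold pt; omega)]
  have h7 : pt C b x + j - (BL C (b.take x)).length = j := by unfold pt; omega
  simp only [h7]
  rw [List.getElem_append_left hj]

theorem gp_pt (c : ℕ) (C : ℕ → List ℕ) (b : List Tk) (hb : b.length = 12)
    (hlen : (BL C b).length = 2 * c) (x : ℕ) (hx : x < 12) :
    gp c C b ((x + 11) % 12) = ((pt C b x : ℕ) : ZMod (2 * c)) - 1 := by
  unfold gp pt
  rcases Nat.eq_zero_or_pos x with rfl | hpos
  · have h1 : (0 + 11) % 12 + 1 = 12 := by norm_num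
    rw [h1, List.take_of_length_le (by omega), hlen, ZMod.natCast_self]
    simp [BL]
  · have h1 : (x + 11) % 12 + 1 = x := by omega
    rw [h1]

theorem pos_ne (c : ℕ) (C : ℕ → List ℕ) (b : List Tk) (hlen : (BL C b).length = 2 * c)
    {x y i j : ℕ} (hxy : x < y) (hy : y < b.length) (hi : i < (bk C b[x]).length)
    (hj : j < (bk C b[y]).length) :
    ((pt C b x + i : ℕ) : ZMod (2 * c)) ≠ ((pt C b y + j : ℕ) : ZMod (2 * c)) := by
  have h1 := pt_succ C b x (by omega)
  have h2 := pt_succ C b y hy
  have h3 := pt_mono C b (show x + 1 ≤ y from hxy)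
  have h4 := pt_le C b (y + 1) (by omega)
  intro h
  have h5 := congrArg ZMod.val h
  rw [ZMod.val_cast_of_lt (by omega), ZMod.val_cast_of_lt (by omega)] at h5
  omega

theorem lds : LdsStmt := by
  intro c C b s hS x y hxy hy hch j hj
  have hb := hS.len
  have hlen := hS.kn.len
  have hx' : x < b.length := by omega
  have hy' : y < b.length := by omega
  have htx : tk b x = b[x] := by unfold tk; exact List.getD_eq_getElem _ _ hx'
  have hty : tk b y = b[y] := by unfold tk; exact List.getD_eq_getElem _ _ hy'
  obtain ⟨P, Q, R, hPQR⟩ := decomp b hxy hy'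
  have hT := hS.ty P Q R b[x] b[y] hPQR (by rw [← htx, ← hty]; exact hch)
  have hgx := gp_pt c C b hb hlen x (by omega)
  have hgy := gp_pt c C b hb hlen y hy
  rw [htx] at hch hj ⊢
  rw [hty] at hch ⊢
  have hlx : (bk C b[x]).length = (C b[x].1).length := by
    unfold bk
    split_ifs
    · exact List.length_reverse
    · rfl
  have hly : (bk C b[y]).length = (C b[x].1).length := by
    unfold bk
    rw [← hch]
    split_ifs
    · exact List.length_reverse
    · rfl
  have hjx : j < (bk C b[x]).length := by omega
  have hmem : (bk C b[x])[j] ∈ C b[x].1 := by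
    have h1 : (bk C b[x])[j] ∈ bk C b[x] := List.getElem_mem _
    revert h1
    generalize (bk C b[x])[j] = z
    intro h1
    unfold bk at h1
    split_ifs at h1
    · exact List.mem_reverse.1 h1
    · exact h1
  have hwx := wd_pt c C b x j hx' hjx hlen
  have hTj := hT _ hmem
  have hsx : s (wd c (BL C b) ((pt C b x + j : ℕ) : ZMod (2 * c))) = false ↔
      b[x].2 = b[y].2 := by
    rw [hwx]
    exact hTj
  constructor
  · intro hd
    have hjy : j < (bk C b[y]).length := by omega
    have hbk : bk C b[x] = bk C b[y] := by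
      unfold bk
      rw [hch, hd]
    have hwy := wd_pt c C b y j hy' hjy hlen
    have hww : wd c (BL C b) ((pt C b x + j : ℕ) : ZMod (2 * c)) =
        wd c (BL C b) ((pt C b y + j : ℕ) : ZMod (2 * c)) := by
      rw [hwx, hwy]
      simp only [hbk]
    have hne := pos_ne c C b hlen hxy hy' hjx hjy
    have hop : op s (wd c (BL C b) ((pt C b x + j : ℕ) : ZMod (2 * c))) = true := by
      unfold op
      rw [hsx.2 hd]
      rfl
    constructor
    · refine Quot.sound ⟨_, _, hne, hww, Or.inl ⟨hop, ?_, ?_⟩⟩
      · rw [hgx]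
        push_cast
        ring
      · rw [hgy]
        push_cast
        ring
    · refine Quot.sound ⟨_, _, hne.symm, hww.symm, Or.inl ⟨by rw [← hww]; exact hop, ?_, ?_⟩⟩
      · rw [hgy]
        push_cast
        ring
      · rw [hgx]
        push_cast
        ring
  · intro hd
    have hjy : (C b[x].1).length - 1 - j < (bk C b[y]).length := by omega
    have hrev : bk C b[y] = (bk C b[x]).reverse := by
      unfold bk
      rw [← hch]
      rcases h1 : b[x].2 with _ | _ <;> rcases h2 : b[y].2 with _ | _
      · exact absurd (h1.trans h2.symm) hd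
      · simp
      · simp
      · exact absurd (h1.trans h2.symm) hd
    have hwy := wd_pt c C b y _ hy' hjy hlen
    have hww : wd c (BL C b) ((pt C b x + j : ℕ) : ZMod (2 * c)) =
        wd c (BL C b) ((pt C b y + ((C b[x].1).length - 1 - j) : ℕ) : ZMod (2 * c)) := by
      rw [hwx, hwy]
      simp only [hrev]
      rw [List.getElem_reverse]
      congr 1
      omega
    have hne := pos_ne c C b hlen hxy hy' hjx hjy
    have hop : op s (wd c (BL C b) ((pt C b x + j : ℕ) : ZMod (2 * c))) = false := by
      unfold op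
      have h1 : s (wd c (BL C b) ((pt C b x + j : ℕ) : ZMod (2 * c))) = true := by
        rcases h2 : s (wd c (BL C b) ((pt C b x + j : ℕ) : ZMod (2 * c))) with _ | _
        · exact absurd (hsx.1 h2) hd
        · rfl
      rw [h1]
      rfl
    constructor
    · refine Quot.sound ⟨_, _, hne, hww, Or.inr ⟨hop, Or.inl ⟨?_, ?_⟩⟩⟩
      · rw [hgx]
        push_cast
        ring
      · rw [hgy, Nat.cast_add]
        ring
    · refine Quot.sound ⟨_, _, hne, hww, Or.inr ⟨hop, Or.inr ⟨?_, ?_⟩⟩⟩
      · rw [hgx]
        push_cast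
        ring
      · have h1 : (C b[x].1).length - j = (C b[x].1).length - 1 - j + 1 := by omega
        rw [hgy, h1, Nat.cast_add, Nat.cast_add, Nat.cast_one]
        ring

end Pool.Agent.ACK.H64
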