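import Pool.Agent.ACK.StmtsA

/-!
# ACK, RTK: rotation of the tokens
-/

set_option autoImplicit false

namespace Pool.Agent.ACK.H64

open Pool.Agent.ACK List

theorem ty_swap {C : ℕ → List ℕ} {a₁ a₂ : List Tk} {s : ℕ → Bool} (h : Ty C (a₁ ++ a₂) s) :
    Ty C (a₂ ++ a₁) s := by
  intro P Q R t t' hb htt x hx
  have hflip : ∀ P' Q' R' : List Tk, a₁ ++ a₂ = P' ++ t' :: (Q' ++ t :: R') →
      (s x = false ↔ t.2 = t'.2) := by
    intro P' Q' R' h'
    have h1 := h P' Q' R' t' t h' htt.symm x (htt ▸ hx)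
    rw [h1]
    exact eq_comm
  rcases List.append_eq_append_iff.1 hb with ⟨a', hP, ha⟩ | ⟨c', ha, hc⟩
  · exact h a' Q (R ++ a₂) t t' (by rw [ha]; simp) htt x hx
  · rcases c' with _ | ⟨y, c''⟩
    · rw [List.nil_append] at hc
      exact h [] Q (R ++ a₂) t t' (by rw [← hc]; simp) htt x hx
    · rw [List.cons_append, List.cons.injEq] at hc
      obtain ⟨rfl, hc⟩ := hc
      rcases List.append_eq_append_iff.1 hc with ⟨a', hQ, ha'⟩ | ⟨c₃, hQ, hc₃⟩
      · rcases a' with _ | ⟨y, c₄⟩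
        · rw [List.nil_append] at ha'
          exact hflip [] (R ++ P) c'' (by rw [ha, ← ha']; simp)
        · rw [List.cons_append, List.cons.injEq] at ha'
          obtain ⟨rfl, ha'⟩ := ha'
          exact h (a₁ ++ P) Q c₄ t t' (by rw [ha, hQ]; simp) htt x hx
      · exact hflip c₃ (R ++ P) c'' (by rw [ha, hc₃]; simp)

theorem cw_perm {C : ℕ → List ℕ} {b b' : List Tk} (hp : b.Perm b') (h : CW C b) : CW C b' where
  tw := by
    intro x hx
    have hp' := hp.map Prod.fst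
    rw [← hp'.count_eq x]
    exact h.tw x (hp'.mem_iff.2 hx)
  ne := fun t ht => h.ne t (hp.mem_iff.2 ht)
  nd := fun t ht => h.nd t (hp.mem_iff.2 ht)
  dj := fun t ht t' ht' => h.dj t (hp.mem_iff.2 ht) t' (hp.mem_iff.2 ht')

theorem rtk : RtkStmt := by
  intro C b b' s hr
  obtain ⟨a₁, a₂, rfl, rfl⟩ : ∃ a₁ a₂ : List Tk, b = a₁ ++ a₂ ∧ b' = a₂ ++ a₁ := by
    obtain ⟨k, rfl⟩ := hr
    exact ⟨b.take (k % b.length), b.drop (k % b.length), (List.take_append_drop _ _).symm,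
      List.rotate_eq_drop_append_take_mod⟩
  refine ⟨?_, cw_perm List.perm_append_comm, ty_swap⟩
  unfold BL
  rw [List.flatMap_append, List.flatMap_append]
  exact List.isRotated_append

end Pool.Agent.ACK.H64
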