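import Pool.Agent.ACK.StmtsB

/-!
# ACK part B, SUM: jump functions have even sums over the circles of every state
-/

set_option autoImplicit false

namespace Pool.Agent.ACK.H64

open Pool.Agent.ACK Pool.Agent.ACK.B

/-- the offset of a half-edge -/
def off (n : ℕ) (b : Bool) : ZMod n := if b then 1 else 0

/-- the other end of the gluing -/
def flp {n : ℕ} (w : ZMod n → ℕ) (s : ℕ → Bool) (i : ZMod n) (b : Bool) : Bool :=
  if s (w i) then !b else b

/-- the involution of the half-edges -/
def tau {n : ℕ} (w : ZMod n → ℕ) (s : ℕ → Bool) (π : ZMod n → ZMod n) (h : ZMod n × Bool) :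
    ZMod n × Bool :=
  (π (h.1 + off n h.2) - off n (flp w s (h.1 + off n h.2) h.2), flp w s (h.1 + off n h.2) h.2)

theorem sum : SumStmt := by
  intro n _ w s hG S hS p0 F hF
  obtain ⟨u, hu, hSu⟩ := hS
  choose π hπ1 hπ2 hπ3 using hG
  have hππ : ∀ i, π (π i) = i := by
    intro i
    rcases hπ3 i (π (π i)) (by rw [hπ2, hπ2]) with h | h
    · exact h
    · exact absurd h (hπ1 (π i))
  have hpos : ∀ h : ZMod n × Bool, (tau w s π h).1 + off n (tau w s π h).2 =
      π (h.1 + off n h.2) := by
    intro h
    unfold tau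
    exact sub_add_cancel _ _
  have hflp : ∀ h : ZMod n × Bool, flp w s (π (h.1 + off n h.2)) (tau w s π h).2 = h.2 := by
    intro h
    unfold tau flp
    dsimp only
    rw [hπ2]
    rcases s (w (h.1 + off n h.2)) with _ | _ <;> simp
  have htt : ∀ h, tau w s π (tau w s π h) = h := by
    intro h
    have h1 : tau w s π (tau w s π h) =
        (π ((tau w s π h).1 + off n (tau w s π h).2) -
          off n (flp w s ((tau w s π h).1 + off n (tau w s π h).2) (tau w s π h).2),
          flp w s ((tau w s π h).1 + off n (tau w s π h).2) (tau w s π h).2) := rfl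
    rw [h1, hpos, hππ, hflp]
    exact Prod.ext (add_sub_cancel_right _ _) rfl
  have hne : ∀ h, tau w s π h ≠ h := by
    intro h he
    have h1 := hpos h
    rw [he] at h1
    exact hπ1 _ h1.symm
  have hcl : ∀ h, cl w s (tau w s π h).1 = cl w s h.1 := by
    rintro ⟨p, b⟩
    obtain ⟨i, hi⟩ : ∃ i, i = p + off n b := ⟨_, rfl⟩
    have hp : p = i - off n b := by rw [hi]; exact (add_sub_cancel_right _ _).symm
    have h1 : (tau w s π (p, b)).1 = π i - off n (flp w s i b) := by
      unfold tau
      rw [hi]
    rw [h1]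
    show cl w s (π i - off n (flp w s i b)) = cl w s p
    rw [hp]
    rcases hs : s (w i) with _ | _ <;> rcases b with _ | _
    · have h2 : flp w s i false = false := by unfold flp; rw [hs]; rfl
      rw [h2]
      refine (Quot.sound ?_ : cl w s (i - off n false) = cl w s (π i - off n false)).symm
      refine ⟨i, π i, (hπ1 i).symm, (hπ2 i).symm, Or.inr ⟨hs, Or.inr ⟨?_, ?_⟩⟩⟩
      · simp [off]
      · simp [off]
    · have h2 : flp w s i true = true := by unfold flp; rw [hs]; rfl
      rw [h2]
      refine (Quot.sound ?_ : cl w s (i - off n true) = cl w s (π i - off n true)).symm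
      refine ⟨i, π i, (hπ1 i).symm, (hπ2 i).symm, Or.inr ⟨hs, Or.inl ⟨?_, ?_⟩⟩⟩
      · simp [off]
      · simp [off]
    · have h2 : flp w s i false = true := by unfold flp; rw [hs]; rfl
      rw [h2]
      refine (Quot.sound ?_ : cl w s (π i - off n true) = cl w s (i - off n false))
      refine ⟨π i, i, hπ1 i, hπ2 i, Or.inl ⟨by rw [hπ2]; exact hs, ?_, ?_⟩⟩
      · simp [off]
      · simp [off]
    · have h2 : flp w s i true = false := by unfold flp; rw [hs]; rfl
      rw [h2]
      refine (Quot.sound ?_ : cl w s (i - off n true) = cl w s (π i - off n false)).symm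
      refine ⟨i, π i, (hπ1 i).symm, (hπ2 i).symm, Or.inl ⟨hs, ?_, ?_⟩⟩
      · simp [off]
      · simp [off]
  have hsum : ∑ p ∈ F, S p = ∑ h ∈ F ×ˢ (Finset.univ : Finset Bool), u (h.1 + off n h.2) := by
    rw [Finset.sum_product]
    refine Finset.sum_congr rfl fun p _ => ?_
    rw [hSu p, Fintype.sum_bool]
    simp [off, add_comm]
  rw [hsum]
  refine Finset.sum_involution (fun h _ => tau w s π h) ?_ ?_ ?_ ?_
  · intro h _
    rw [hpos, hu _ _ (hπ2 (h.1 + off n h.2))]
    exact CharTwo.add_self_eq_zero _
  · intro h _ _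
    exact hne h
  · intro h hh
    rw [Finset.mem_product] at hh ⊢
    refine ⟨?_, Finset.mem_univ _⟩
    rw [hF, hcl]
    exact (hF _).1 hh.1
  · intro h _
    exact htt h

end Pool.Agent.ACK.H64
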